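import Pool.Agent.Lib.MP_7b9603_alIL.Step
import Pool.Agent.Lib.MP_7b9603_alCF.F2

/-!
# Infinite labels: reduction to one label
-/

set_option autoImplicit false

namespace Pool.Agent.Lib.MP_7b9603_alIL

universe u v w

open SPH

open Classical in
/-- `M` with the entries `(s, t)`, `(t, s)` replaced by those of `M'`. -/
private noncomputable def al_mat {S : Type u} (M M' : CoxeterMatrix S) (s t : S) (hst : s ≠ t) :
    CoxeterMatrix S where
  M := fun a b => if (a = s ∧ b = t) ∨ (a = t ∧ b = s) then M' s t else M a b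
  isSymm := by
    refine Matrix.IsSymm.ext fun i j => ?_
    by_cases h : (i = s ∧ j = t) ∨ (i = t ∧ j = s)
    · have h' : (j = s ∧ i = t) ∨ (j = t ∧ i = s) := by
        rcases h with ⟨h1, h2⟩ | ⟨h1, h2⟩
        · exact Or.inr ⟨h2, h1⟩
        · exact Or.inl ⟨h2, h1⟩
      rw [if_pos h, if_pos h']
    · have h' : ¬ ((j = s ∧ i = t) ∨ (j = t ∧ i = s)) := by
        rintro (⟨h1, h2⟩ | ⟨h1, h2⟩)
        · exact h (Or.inr ⟨h2, h1⟩)
        · exact h (Or.inl ⟨h2, h1⟩)
      rw [if_neg h, if_neg h']
      exact M.symmetric j i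
  diagonal := fun i => by
    have h : ¬ ((i = s ∧ i = t) ∨ (i = t ∧ i = s)) := by
      rintro (⟨h1, h2⟩ | ⟨h1, h2⟩)
      · exact hst (h1.symm.trans h2)
      · exact hst (h2.symm.trans h1)
    rw [if_neg h]
    exact M.diagonal i
  off_diagonal := fun i j hij => by
    by_cases h : (i = s ∧ j = t) ∨ (i = t ∧ j = s)
    · rw [if_pos h]
      exact M'.off_diagonal s t hst
    · rw [if_neg h]
      exact M.off_diagonal i j hij

private theorem al_mat_pos {S : Type u} (M M' : CoxeterMatrix S) (s t : S) (hst : s ≠ t) {a b : S}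
    (h : (a = s ∧ b = t) ∨ (a = t ∧ b = s)) : al_mat M M' s t hst a b = M' a b := by
  have h1 : al_mat M M' s t hst a b = M' s t := if_pos h
  rw [h1]
  rcases h with ⟨rfl, rfl⟩ | ⟨rfl, rfl⟩
  · rfl
  · exact M'.symmetric _ _

private theorem al_mat_neg {S : Type u} (M M' : CoxeterMatrix S) (s t : S) (hst : s ≠ t) {a b : S}
    (h : ¬ ((a = s ∧ b = t) ∨ (a = t ∧ b = s))) : al_mat M M' s t hst a b = M a b :=
  if_neg h

private theorem al_ind {S : Type u} [Finite S] (M' : CoxeterMatrix S) (K : Type w) [Field K]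
    [NoZeroDivisors (MonoidAlgebra K (ArtinGroup M'))] :
    ∀ (n : ℕ) (M : CoxeterMatrix S), (∀ a b, M a b ≠ 0 → M' a b = M a b) →
      {x : S × S | M x.1 x.2 = 0 ∧ M' x.1 x.2 ≠ 0}.ncard = n →
      NoZeroDivisors (MonoidAlgebra K (ArtinGroup M)) := by
  intro n
  induction n using Nat.strong_induction_on with
  | _ n ih =>
    intro M hM hn
    by_cases hex : ∃ x : S × S, M x.1 x.2 = 0 ∧ M' x.1 x.2 ≠ 0
    · obtain ⟨⟨s, t⟩, h0, h1⟩ := hex
      have hst : s ≠ t := by
        rintro rfl
        rw [show M s s = 1 from M.diagonal s] at h0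
        exact one_ne_zero h0
      have hM2 : ∀ a b, al_mat M M' s t hst a b ≠ 0 → M' a b = al_mat M M' s t hst a b := by
        intro a b hab
        by_cases h : (a = s ∧ b = t) ∨ (a = t ∧ b = s)
        · rw [al_mat_pos M M' s t hst h]
        · rw [al_mat_neg M M' s t hst h] at hab ⊢
          exact hM a b hab
      have hlt : {x : S × S | al_mat M M' s t hst x.1 x.2 = 0 ∧ M' x.1 x.2 ≠ 0}.ncard < n := by
        rw [← hn]
        refine Set.ncard_lt_ncard ?_ (Set.toFinite _)
        refine (Set.ssubset_iff_of_subset ?_).2 ⟨(s, t), ⟨h0, h1⟩, ?_⟩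
        · rintro ⟨a, b⟩ ⟨h2, h3⟩
          refine ⟨?_, h3⟩
          by_cases h : (a = s ∧ b = t) ∨ (a = t ∧ b = s)
          · rw [al_mat_pos M M' s t hst h] at h2
            exact absurd h2 h3
          · rw [al_mat_neg M M' s t hst h] at h2
            exact h2
        · rintro ⟨h2, h3⟩
          rw [al_mat_pos M M' s t hst (Or.inl ⟨rfl, rfl⟩)] at h2
          exact h3 h2
      have hnz : NoZeroDivisors (MonoidAlgebra K (ArtinGroup (al_mat M M' s t hst))) :=
        ih _ hlt (al_mat M M' s t hst) hM2 rfl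
      refine step M (al_mat M M' s t hst) s t hst h0 (fun a b h2 h3 => ?_) K
      exact al_mat_neg M M' s t hst (by
        rintro (h | h)
        · exact h2 h
        · exact h3 h)
    · have hEq : M = M' := by
        apply CoxeterMatrix.ext
        funext a b
        by_cases h : M a b = 0
        · by_contra hne
          refine hex ⟨(a, b), h, fun h' => hne ?_⟩
          exact h.trans h'.symm
        · exact (hM a b h).symm
      rw [hEq]
      infer_instance

/-- All.lean: any infinite labels. -/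
theorem all_labels {S : Type u} [Finite S] (M M' : CoxeterMatrix S)
    (hM : ∀ a b, M a b ≠ 0 → M' a b = M a b)
    (K : Type w) [Field K] [NoZeroDivisors (MonoidAlgebra K (ArtinGroup M'))] :
    NoZeroDivisors (MonoidAlgebra K (ArtinGroup M)) :=
  al_ind M' K _ M hM rfl

end Pool.Agent.Lib.MP_7b9603_alIL
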