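import Mathlib

/-!
# Infinite labels, definitions

`SM B G` is the semidirect product of the free monoid on a `G`-set `B` and `G`; `ltr c`, `U c`,
`V c`, `Cg`, `P`, `ev` are elements and functionals of the power series ring over its monoid
algebra.
-/

set_option autoImplicit false

namespace Pool.Agent.Lib.MP_7b9603_alIL

universe u v w

/-- The semidirect product of the free monoid on `B` (words are lists) and the group `G` acting
on `B`. -/
@[ext] structure SM (B : Type u) (G : Type v) where
  /-- The word. -/
  w : List B
  /-- The group element. -/
  g : G

namespace SM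

variable {B : Type u} {G : Type v} [Group G] [MulAction G B]

instance : Mul (SM B G) := ⟨fun a b => ⟨a.w ++ b.w.map (fun c => a.g • c), a.g * b.g⟩⟩

instance : One (SM B G) := ⟨⟨[], 1⟩⟩

@[simp] theorem mul_w (a b : SM B G) : (a * b).w = a.w ++ b.w.map (fun c => a.g • c) := rfl

@[simp] theorem mul_g (a b : SM B G) : (a * b).g = a.g * b.g := rfl

omit [MulAction G B] in
@[simp] theorem one_w : (1 : SM B G).w = [] := rfl

omit [MulAction G B] in
@[simp] theorem one_g : (1 : SM B G).g = 1 := rfl

instance : Monoid (SM B G) where
  mul_assoc a b c := by
    apply SM.ext
    · simp [List.map_append, Function.comp_def, mul_smul]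
    · simp [mul_assoc]
  one_mul a := by
    apply SM.ext <;> simp
  mul_one a := by
    apply SM.ext <;> simp

/-- The inclusion of `G`. -/
def inl (B : Type u) {G : Type v} [Group G] [MulAction G B] : G →* SM B G where
  toFun g := ⟨[], g⟩
  map_one' := rfl
  map_mul' a b := by apply SM.ext <;> simp

@[simp] theorem inl_w (g : G) : (inl B g).w = [] := rfl

@[simp] theorem inl_g (g : G) : (inl B g).g = g := rfl

end SM

section series

variable (K : Type w) [Field K] (B : Type u) (G : Type v) [Group G] [MulAction G B]

/-- The monoid algebra of `SM B G`. -/
abbrev TA : Type max u v w := MonoidAlgebra K (SM B G)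

/-- The power series ring. -/
abbrev TS : Type max u v w := PowerSeries (TA K B G)

variable {K B G}

variable (K G) in
/-- The letter `c`. -/
noncomputable def ltr (c : B) : TA K B G := MonoidAlgebra.single ⟨[c], 1⟩ 1

variable (K G) in
/-- The unit `1 + c z`. -/
noncomputable def U (c : B) : TS K B G := 1 + PowerSeries.C (ltr K G c) * PowerSeries.X

variable (K G) in
/-- The inverse of `1 + c z`. -/
noncomputable def V (c : B) : TS K B G := PowerSeries.mk fun n => (-ltr K G c) ^ n

variable (K B) in
/-- The constants from `G`. -/
noncomputable def Cg : G →* TS K B G :=
  (PowerSeries.C (R := TA K B G)).toMonoidHom.comp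
    ((MonoidAlgebra.of K (SM B G)).comp (SM.inl B))

variable (K G) in
/-- The alternating product of the units `U c` and `V c` along a list. -/
noncomputable def P : Bool → List B → TS K B G
  | _, [] => 1
  | true, c :: l => U K G c * P false l
  | false, c :: l => V K G c * P true l

/-- The coefficient of a power series at the word `w` and the group element `g`, in the degree
given by the length of `w`. -/
noncomputable def ev (F : TS K B G) (l : List B) (g : G) : K :=
  (PowerSeries.coeff l.length F).coeff ⟨l, g⟩

end series

end Pool.Agent.Lib.MP_7b9603_alIL
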