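import Pool.Agent.Lib.MP_7b9603_alIL.Defs

/-!
# Infinite labels: the monoid algebra of `SM B G` is a domain
-/

set_option autoImplicit false

namespace Pool.Agent.Lib.MP_7b9603_alIL

universe u v w

section series

variable {K : Type w} [Field K] {B : Type u} {G : Type v} [Group G] [MulAction G B]

/-- The section of `x` at the word `s`: the coefficient at `g` is the coefficient of `x` at
`⟨s, g⟩`. -/
private noncomputable def dom_sec (s : List B) (x : TA K B G) : MonoidAlgebra K G :=
  MonoidAlgebra.ofCoeff (x.coeff.comapDomain (fun g => (⟨s, g⟩ : SM B G))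
    (fun _ _ _ _ h => congrArg SM.g h))

/-- The section of `y` at the word `t`: the coefficient at `g` is the coefficient of `y` at
`⟨g t, g⟩`. -/
private noncomputable def dom_cosec (t : List B) (y : TA K B G) : MonoidAlgebra K G :=
  MonoidAlgebra.ofCoeff (y.coeff.comapDomain (fun g => (⟨t.map (fun c => g • c), g⟩ : SM B G))
    (fun _ _ _ _ h => congrArg SM.g h))

private theorem dom_sec_coeff (s : List B) (x : TA K B G) (g : G) :
    (dom_sec s x).coeff g = x.coeff ⟨s, g⟩ := rfl

private theorem dom_cosec_coeff (t : List B) (y : TA K B G) (g : G) :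
    (dom_cosec t y).coeff g = y.coeff ⟨t.map (fun c => g • c), g⟩ := rfl

private theorem dom_map_map (t : List B) (g h : G) :
    (t.map (fun c => h • c)).map (fun c => g • c) = t.map (fun c => (g * h) • c) := by
  simp [List.map_map, Function.comp_def, mul_smul]

/-- The coefficient of the product at `⟨s ++ g t, g⟩`, when `s` and `t` are as long as possible. -/
private theorem dom_key (x y : TA K B G) (s t : List B)
    (hx : ∀ a ∈ x.coeff.support, a.w.length ≤ s.length)
    (hy : ∀ b ∈ y.coeff.support, b.w.length ≤ t.length) (g : G) :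
    (dom_sec s x * dom_cosec t y).coeff g = (x * y).coeff ⟨s ++ t.map (fun c => g • c), g⟩ := by
  classical
  rw [MonoidAlgebra.coeff_mul, MonoidAlgebra.coeff_mul]
  unfold Finsupp.sum
  rw [← Finset.sum_product', ← Finset.sum_product']
  refine Finset.sum_of_injOn (fun p : G × G => ((⟨s, p.1⟩ : SM B G),
    (⟨t.map (fun c => p.2 • c), p.2⟩ : SM B G))) ?_ ?_ ?_ ?_
  · intro p _ q _ h
    have h1 := congrArg (fun r : SM B G × SM B G => r.1.g) h
    have h2 := congrArg (fun r : SM B G × SM B G => r.2.g) h
    exact Prod.ext h1 h2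
  · intro p hp
    rw [Finset.mem_coe, Finset.mem_product, Finsupp.mem_support_iff, Finsupp.mem_support_iff,
      dom_sec_coeff, dom_cosec_coeff] at hp
    rw [Finset.mem_coe, Finset.mem_product, Finsupp.mem_support_iff, Finsupp.mem_support_iff]
    exact hp
  · rintro ⟨a, b⟩ hab hnot
    rw [Finset.mem_product] at hab
    obtain ⟨ha, hb⟩ := hab
    simp only at ha hb ⊢
    rw [if_neg]
    intro heq
    apply hnot
    have hw : a.w ++ b.w.map (fun c => a.g • c) = s ++ t.map (fun c => g • c) :=
      congrArg SM.w heq
    have hg : a.g * b.g = g := congrArg SM.g heq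
    have hl : a.w.length + b.w.length = s.length + t.length := by
      have := congrArg List.length hw
      simpa using this
    have h1 := hx a ha
    have h2 := hy b hb
    obtain ⟨h3, h4⟩ := List.append_inj hw (by omega)
    have h5 : b.w = t.map (fun c => b.g • c) := by
      have h6 := congrArg (List.map (fun c => a.g⁻¹ • c)) h4
      rw [dom_map_map, dom_map_map, inv_mul_cancel] at h6
      have h7 : b.w.map (fun c => (1 : G) • c) = b.w := by simp
      rw [h7] at h6
      rw [h6, ← hg, inv_mul_cancel_left]
    have ea : (⟨s, a.g⟩ : SM B G) = a := SM.ext h3.symm rfl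
    have eb : (⟨t.map (fun c => b.g • c), b.g⟩ : SM B G) = b := SM.ext h5.symm rfl
    refine ⟨(a.g, b.g), ?_, ?_⟩
    · rw [Finset.mem_coe, Finset.mem_product, Finsupp.mem_support_iff, Finsupp.mem_support_iff,
        dom_sec_coeff, dom_cosec_coeff]
      simp only
      rw [ea, eb]
      exact ⟨Finsupp.mem_support_iff.1 ha, Finsupp.mem_support_iff.1 hb⟩
    · simp only
      rw [ea, eb]
  · rintro ⟨g₁, g₂⟩ _
    simp only [dom_sec_coeff, dom_cosec_coeff]
    refine if_congr ?_ rfl rfl
    constructor
    · intro h
      apply SM.ext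
      · simp only [SM.mul_w]
        rw [dom_map_map, h]
      · exact h
    · intro h
      exact congrArg SM.g h

/-- Dom.lean -/
theorem noZeroDivisors_TA [NoZeroDivisors (MonoidAlgebra K G)] : NoZeroDivisors (TA K B G) where
  eq_zero_or_eq_zero_of_mul_eq_zero := by
    intro x y hxy
    by_contra hcon
    push Not at hcon
    obtain ⟨hx, hy⟩ := hcon
    have hxs : x.coeff.support.Nonempty :=
      Finsupp.support_nonempty_iff.2 (fun h => hx (MonoidAlgebra.coeff_eq_zero.1 h))
    have hys : y.coeff.support.Nonempty :=
      Finsupp.support_nonempty_iff.2 (fun h => hy (MonoidAlgebra.coeff_eq_zero.1 h))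
    obtain ⟨a, ha, hamax⟩ := x.coeff.support.exists_max_image (fun r => r.w.length) hxs
    obtain ⟨b, hb, hbmax⟩ := y.coeff.support.exists_max_image (fun r => r.w.length) hys
    have h1 : dom_sec a.w x ≠ 0 := by
      intro h0
      have h2 := congrArg (fun z : MonoidAlgebra K G => z.coeff a.g) h0
      simp only [dom_sec_coeff] at h2
      exact (Finsupp.mem_support_iff.1 ha) h2
    have h2 : dom_cosec (b.w.map (fun c => b.g⁻¹ • c)) y ≠ 0 := by
      intro h0
      have h3 := congrArg (fun z : MonoidAlgebra K G => z.coeff b.g) h0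
      simp only [dom_cosec_coeff] at h3
      rw [dom_map_map, mul_inv_cancel] at h3
      have h4 : b.w.map (fun c => (1 : G) • c) = b.w := by simp
      rw [h4] at h3
      exact (Finsupp.mem_support_iff.1 hb) h3
    have h3 := mul_ne_zero h1 h2
    apply h3
    apply MonoidAlgebra.coeff_injective
    ext g
    rw [dom_key x y a.w (b.w.map (fun c => b.g⁻¹ • c)) (fun c hc => hamax c hc)
      (fun c hc => by rw [List.length_map]; exact hbmax c hc) g, hxy]
    rfl

end series

end Pool.Agent.Lib.MP_7b9603_alIL
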