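import Pool.Agent.Lib.MP_7b9603_alIL.Defs

/-!
# Infinite labels: evaluation of alternating products
-/

set_option autoImplicit false

namespace Pool.Agent.Lib.MP_7b9603_alIL

universe u v w

section series

variable {K : Type w} [Field K] {B : Type u} {G : Type v} [Group G] [MulAction G B]

private theorem ev_add (F F' : TS K B G) (w : List B) (g : G) :
    ev (F + F') w g = ev F w g + ev F' w g := by
  unfold ev
  rw [map_add, MonoidAlgebra.coeff_add, Finsupp.add_apply]

private theorem ev_mk_mul (c : B) (m : SM B G) :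
    (⟨[c], 1⟩ : SM B G) * m = ⟨c :: m.w, m.g⟩ := by
  apply SM.ext <;> simp

private theorem ev_nil_mul (c : B) (F : TS K B G) (g : G) :
    ev (PowerSeries.C (ltr K G c) * PowerSeries.X * F) [] g = 0 := by
  unfold ev
  rw [mul_assoc, PowerSeries.coeff_C_mul]
  simp

private theorem ev_cons_self (c : B) (F : TS K B G) (w : List B) (g : G) :
    ev (PowerSeries.C (ltr K G c) * PowerSeries.X * F) (c :: w) g = ev F w g := by
  unfold ev
  rw [mul_assoc, PowerSeries.coeff_C_mul, List.length_cons, PowerSeries.coeff_succ_X_mul, ltr,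
    MonoidAlgebra.coeff_single_mul_eq_mul_coeff (m₂ := (⟨w, g⟩ : SM B G)), one_mul]
  intro m _
  rw [ev_mk_mul]
  constructor
  · intro h
    have h1 := congrArg SM.w h
    have h2 := congrArg SM.g h
    simp only [List.cons.injEq, true_and] at h1
    exact SM.ext h1 h2
  · rintro rfl
    rfl

private theorem ev_cons_ne (c d : B) (h : d ≠ c) (F : TS K B G) (w : List B) (g : G) :
    ev (PowerSeries.C (ltr K G c) * PowerSeries.X * F) (d :: w) g = 0 := by
  unfold ev
  rw [mul_assoc, PowerSeries.coeff_C_mul, List.length_cons, PowerSeries.coeff_succ_X_mul, ltr,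
    MonoidAlgebra.coeff_single_mul_of_forall_mul_ne]
  intro m hm
  rw [ev_mk_mul] at hm
  have h1 := congrArg SM.w hm
  simp only [List.cons.injEq] at h1
  exact h h1.1.symm

private theorem ev_U_mul (c : B) (F : TS K B G) :
    U K G c * F = F + PowerSeries.C (ltr K G c) * PowerSeries.X * F := by
  unfold U
  rw [add_mul, one_mul]

private theorem ev_U_mul_V (c : B) : U K G c * V K G c = 1 := by
  rw [ev_U_mul]
  ext1 n
  cases n with
  | zero =>
    rw [map_add, mul_assoc, PowerSeries.coeff_C_mul]
    simp [V]
  | succ n =>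
    rw [map_add, mul_assoc, PowerSeries.coeff_C_mul, PowerSeries.coeff_succ_X_mul]
    simp [V, PowerSeries.coeff_one, pow_succ']

private theorem ev_U_ne (c : B) (F : TS K B G) (w : List B) (g : G)
    (h : ∀ w', w ≠ c :: w') : ev (U K G c * F) w g = ev F w g := by
  rw [ev_U_mul, ev_add]
  cases w with
  | nil => rw [ev_nil_mul, add_zero]
  | cons d w =>
    have hd : d ≠ c := by
      rintro rfl
      exact h w rfl
    rw [ev_cons_ne c d hd, add_zero]

private theorem ev_U_cons (c : B) (F : TS K B G) (w : List B) (g : G) :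
    ev (U K G c * F) (c :: w) g = ev F (c :: w) g + ev F w g := by
  rw [ev_U_mul, ev_add, ev_cons_self]

private theorem ev_V_ne (c : B) (F : TS K B G) (w : List B) (g : G)
    (h : ∀ w', w ≠ c :: w') : ev (V K G c * F) w g = ev F w g := by
  have h1 := ev_U_ne c (V K G c * F) w g h
  rw [← mul_assoc, ev_U_mul_V, one_mul] at h1
  exact h1.symm

private theorem ev_V_cons (c : B) (F : TS K B G) (w : List B) (g : G)
    (h : ∀ w', w ≠ c :: w') : ev (V K G c * F) (c :: w) g = ev F (c :: w) g - ev F w g := by
  have h1 := ev_U_cons c (V K G c * F) w g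
  rw [← mul_assoc, ev_U_mul_V, one_mul, ev_V_ne c F w g h] at h1
  rw [h1]
  ring

open Classical in
private theorem ev_Cg (γ : G) (w : List B) (γ' : G) :
    ev (Cg K B γ) w γ' = if w = [] ∧ γ' = γ then 1 else 0 := by
  have h1 : Cg K B γ = PowerSeries.C (MonoidAlgebra.single (⟨[], γ⟩ : SM B G) (1 : K)) := rfl
  unfold ev
  rw [h1, PowerSeries.coeff_C]
  cases w with
  | nil =>
    simp only [List.length_nil, if_true, MonoidAlgebra.coeff_single, true_and]
    rw [Finsupp.single_apply]
    by_cases h : γ' = γ
    · subst h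
      simp
    · rw [if_neg h, if_neg]
      intro h2
      exact h (congrArg SM.g h2).symm
  | cons d w =>
    simp

open Classical in
/-- The value of an alternating product at chains which are at least as long. -/
theorem ev_P (b : Bool) (l : List B) (γ : G) : ∃ ε : K, ε ≠ 0 ∧ ∀ (w : List B) (γ' : G),
    w.IsChain (· ≠ ·) → l.length ≤ w.length →
    ev (P K G b l * Cg K B γ) w γ' = if w = l ∧ γ' = γ then ε else 0 := by
  induction l generalizing b with
  | nil =>
    refine ⟨1, one_ne_zero, fun w γ' _ _ => ?_⟩
    have h1 : P K G b ([] : List B) = 1 := by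
      cases b <;> rfl
    rw [h1, one_mul, ev_Cg]
  | cons c l ih =>
    have hlong : ∀ (w : List B), (c :: l).length ≤ w.length → w ≠ l := by
      rintro w hw rfl
      simp at hw
    cases b with
    | true =>
      obtain ⟨ε, hε, hev⟩ := ih false
      refine ⟨ε, hε, fun w γ' hch hw => ?_⟩
      have hz : ev (P K G false l * Cg K B γ) w γ' = 0 := by
        rw [hev w γ' hch (by simp only [List.length_cons] at hw; omega),
          if_neg fun h => hlong w hw h.1]
      have h1 : P K G true (c :: l) = U K G c * P K G false l := rfl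
      rw [h1, mul_assoc]
      by_cases hc : ∃ w', w = c :: w'
      · obtain ⟨w', rfl⟩ := hc
        rw [ev_U_cons, hz, zero_add, hev w' γ' hch.tail (by simpa using hw)]
        simp only [List.cons.injEq, true_and]
      · rw [ev_U_ne c _ w γ' fun w' h => hc ⟨w', h⟩, hz, if_neg]
        rintro ⟨h, -⟩
        exact hc ⟨l, h⟩
    | false =>
      obtain ⟨ε, hε, hev⟩ := ih true
      refine ⟨-ε, neg_ne_zero.mpr hε, fun w γ' hch hw => ?_⟩
      have hz : ev (P K G true l * Cg K B γ) w γ' = 0 := by
        rw [hev w γ' hch (by simp only [List.length_cons] at hw; omega),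
          if_neg fun h => hlong w hw h.1]
      have h1 : P K G false (c :: l) = V K G c * P K G true l := rfl
      rw [h1, mul_assoc]
      by_cases hc : ∃ w', w = c :: w'
      · obtain ⟨w', rfl⟩ := hc
        have hne : ∀ w'', w' ≠ c :: w'' := by
          rintro w'' rfl
          have h2 := (List.isChain_cons_cons.mp hch).1
          exact h2 rfl
        rw [ev_V_cons c _ w' γ' hne, hz, zero_sub, hev w' γ' hch.tail (by simpa using hw)]
        simp only [List.cons.injEq, true_and]
        split_ifs <;> simp
      · rw [ev_V_ne c _ w γ' fun w' h => hc ⟨w', h⟩, hz, if_neg]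
        rintro ⟨h, -⟩
        exact hc ⟨l, h⟩

end series

end Pool.Agent.Lib.MP_7b9603_alIL
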