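import Pool.Agent.Lib.MP_7b9603_alIL.Defs

/-!
# Infinite labels: the units of the power series ring
-/

set_option autoImplicit false

namespace Pool.Agent.Lib.MP_7b9603_alIL

universe u v w

section series

variable {K : Type w} [Field K] {B : Type u} {G : Type v} [Group G] [MulAction G B]

theorem U_mul_V (c : B) : U K G c * V K G c = 1 := by
  ext1 n
  rw [U, V, add_mul, one_mul, mul_assoc, map_add, PowerSeries.coeff_C_mul, PowerSeries.coeff_mk]
  cases n with
  | zero =>
    rw [PowerSeries.coeff_zero_X_mul, mul_zero, add_zero, pow_zero, PowerSeries.coeff_one, if_pos rfl]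
  | succ n =>
    rw [PowerSeries.coeff_succ_X_mul, PowerSeries.coeff_mk, pow_succ', neg_mul, neg_add_cancel,
      PowerSeries.coeff_one, if_neg (Nat.succ_ne_zero n)]

theorem V_mul_U (c : B) : V K G c * U K G c = 1 := by
  ext1 n
  rw [U, V, mul_add, mul_one, ← mul_assoc, map_add, PowerSeries.coeff_mk]
  cases n with
  | zero =>
    rw [PowerSeries.coeff_zero_mul_X, add_zero, pow_zero, PowerSeries.coeff_one, if_pos rfl]
  | succ n =>
    rw [PowerSeries.coeff_succ_mul_X, PowerSeries.coeff_mul_C, PowerSeries.coeff_mk, pow_succ,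
      mul_neg, neg_add_cancel, PowerSeries.coeff_one, if_neg (Nat.succ_ne_zero n)]

private theorem ser_of_mul_ltr (g : G) (c : B) :
    MonoidAlgebra.of K (SM B G) (SM.inl B g) * ltr K G c =
      ltr K G (g • c) * MonoidAlgebra.of K (SM B G) (SM.inl B g) := by
  rw [ltr, ltr, MonoidAlgebra.of_apply, MonoidAlgebra.single_mul_single,
    MonoidAlgebra.single_mul_single]
  congr 1
  apply SM.ext
  · simp
  · simp

private theorem ser_Cg (g : G) : Cg K B g =
    PowerSeries.C (MonoidAlgebra.of K (SM B G) (SM.inl B g)) := rfl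

theorem Cg_mul_U (g : G) (c : B) : Cg K B g * U K G c = U K G (g • c) * Cg K B g := by
  rw [ser_Cg, U, U, mul_add, mul_one, add_mul, one_mul, ← mul_assoc, ← map_mul, ser_of_mul_ltr,
    mul_assoc, PowerSeries.X_mul, ← mul_assoc, ← map_mul]

theorem Cg_mul_V (g : G) (c : B) : Cg K B g * V K G c = V K G (g • c) * Cg K B g := by
  calc Cg K B g * V K G c = (V K G (g • c) * U K G (g • c)) * (Cg K B g * V K G c) := by
        rw [V_mul_U, one_mul]
    _ = V K G (g • c) * ((U K G (g • c) * Cg K B g) * V K G c) := by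
        simp only [mul_assoc]
    _ = V K G (g • c) * ((Cg K B g * U K G c) * V K G c) := by rw [Cg_mul_U]
    _ = V K G (g • c) * Cg K B g := by rw [mul_assoc (Cg K B g), U_mul_V, mul_one]

theorem Cg_mul_P (g : G) (b : Bool) (l : List B) :
    Cg K B g * P K G b l = P K G b (l.map (fun c => g • c)) * Cg K B g := by
  induction l generalizing b with
  | nil => cases b <;> simp [P]
  | cons c l ih =>
    cases b
    · rw [List.map_cons, P, P, ← mul_assoc, Cg_mul_V, mul_assoc, ih, mul_assoc]
    · rw [List.map_cons, P, P, ← mul_assoc, Cg_mul_U, mul_assoc, ih, mul_assoc]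

end series

end Pool.Agent.Lib.MP_7b9603_alIL
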