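import Pool.Agent.Lib.MP_7b9603_alIL.Dom
import Pool.Agent.Lib.MP_7b9603_alIL.Ser
import Pool.Agent.Lib.MP_7b9603_alIL.Ev

/-!
# Infinite labels: the embedding of the group algebra of an amalgam
-/

set_option autoImplicit false

namespace Pool.Agent.Lib.MP_7b9603_alIL

universe u v w

section red

variable {G : Type u} {Q : Type v} [Group G] [Group Q] (φ : G →* Q) (X Y Z : Subgroup G)

/-- Reduced expressions together with their lists of cosets. -/
inductive Red : G → List (Q ⧸ Z.map φ) → Prop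
  | base (x : G) (hx : x ∈ X) : Red x []
  | cons (a b g : G) (l : List (Q ⧸ Z.map φ)) (ha : a ∈ X) (hb : b ∈ Y) (hbZ : b ∉ Z)
      (h : Red g l) (hl : ∀ c ∈ l.head?, c ≠ ((1 : Q) : Q ⧸ Z.map φ)) :
      Red (a * b * g) (((φ a : Q) : Q ⧸ Z.map φ) :: ((φ (a * b) : Q) : Q ⧸ Z.map φ) ::
        l.map (fun c => φ (a * b) • c))

variable {φ X Y Z}

theorem coe_eq_one_iff {X : Subgroup G} (hZX : Z ≤ X) (hX : ∀ x ∈ X, φ x = 1 → x = 1) {a : G}
    (ha : a ∈ X) (h : φ a ∈ Z.map φ) : a ∈ Z := by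
  obtain ⟨z, hz, hza⟩ := h
  have h1 : z⁻¹ * a = 1 := by
    refine hX _ (X.mul_mem (X.inv_mem (hZX hz)) ha) ?_
    rw [map_mul, map_inv, hza, inv_mul_cancel]
  have h2 : a = z := by
    rw [inv_mul_eq_one] at h1
    exact h1.symm
  rw [h2]
  exact hz

theorem Red.mul_left {g : G} {l : List (Q ⧸ Z.map φ)} (h : Red φ X Y Z g l) {x : G}
    (hx : x ∈ X) : Red φ X Y Z (x * g) (l.map (fun c => φ x • c)) := by
  cases h with
  | base y hy => exact Red.base _ (X.mul_mem hx hy)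
  | cons a b g l ha hb hbZ h hl =>
    have h1 := Red.cons (φ := φ) (x * a) b g l (X.mul_mem hx ha) hb hbZ h hl
    have e1 : x * (a * b * g) = x * a * b * g := by simp only [mul_assoc]
    rw [e1]
    convert h1 using 1
    simp only [List.map_cons, List.map_map, map_mul, mul_assoc, Function.comp_def, mul_smul]
    rfl

theorem Red.exists_mul (hZX : Z ≤ X) (hZY : Z ≤ Y) (hX : ∀ x ∈ X, φ x = 1 → x = 1)
    {g : G} {l : List (Q ⧸ Z.map φ)} (h : Red φ X Y Z g l) {y : G} (hy : y ∈ Y) :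
    ∃ l', Red φ X Y Z (y * g) l' := by
  by_cases hyZ : y ∈ Z
  · exact ⟨_, h.mul_left (hZX hyZ)⟩
  cases h with
  | base x hx =>
    have h1 := Red.cons (φ := φ) 1 y g [] X.one_mem hy hyZ (Red.base g hx) (by simp)
    rw [one_mul] at h1
    exact ⟨_, h1⟩
  | cons a b g l ha hb hbZ h hl =>
    by_cases haZ : a ∈ Z
    · have hb' : y * a * b ∈ Y := Y.mul_mem (Y.mul_mem hy (hZY haZ)) hb
      have e1 : y * (a * b * g) = y * a * b * g := by simp only [mul_assoc]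
      rw [e1]
      by_cases hb'Z : y * a * b ∈ Z
      · exact ⟨_, h.mul_left (hZX hb'Z)⟩
      · have h1 := Red.cons (φ := φ) 1 (y * a * b) g l X.one_mem hb' hb'Z h hl
        rw [one_mul] at h1
        exact ⟨_, h1⟩
    · have h0 := Red.cons (φ := φ) a b g l ha hb hbZ h hl
      have h1 := Red.cons (φ := φ) 1 y _ _ X.one_mem hy hyZ h0 (by
        intro c hc
        simp only [List.head?_cons, Option.mem_def, Option.some.injEq] at hc
        rw [← hc]
        intro h2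
        rw [QuotientGroup.eq] at h2
        apply haZ
        apply coe_eq_one_iff hZX hX ha
        have h3 := (Z.map φ).inv_mem h2
        simpa using h3)
      rw [one_mul] at h1
      exact ⟨_, h1⟩

theorem exists_red (hZX : Z ≤ X) (hZY : Z ≤ Y) (hgen : X ⊔ Y = ⊤)
    (hX : ∀ x ∈ X, φ x = 1 → x = 1) (g : G) : ∃ l, Red φ X Y Z g l := by
  have hg : g ∈ Subgroup.closure ((X : Set G) ∪ Y) := by
    rw [← Subgroup.sup_eq_closure, hgen]
    exact Subgroup.mem_top g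
  induction hg using Subgroup.closure_induction_left with
  | one => exact ⟨_, Red.base 1 X.one_mem⟩
  | mul_left x hx y hy ih =>
    obtain ⟨l, hl⟩ := ih
    rcases hx with hx | hx
    · exact ⟨_, hl.mul_left hx⟩
    · exact hl.exists_mul hZX hZY hX hx
  | inv_mul_cancel x hx y hy ih =>
    obtain ⟨l, hl⟩ := ih
    rcases hx with hx | hx
    · exact ⟨_, hl.mul_left (X.inv_mem hx)⟩
    · exact hl.exists_mul hZX hZY hX (Y.inv_mem hx)

theorem Red.isChain (hZY : Z ≤ Y) (hY : ∀ y ∈ Y, φ y = 1 → y = 1)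
    {g : G} {l : List (Q ⧸ Z.map φ)} (h : Red φ X Y Z g l) : l.IsChain (· ≠ ·) := by
  induction h with
  | base x hx => exact List.IsChain.nil
  | cons a b g l ha hb hbZ h hl ih =>
    have h1 : ((φ a : Q) : Q ⧸ Z.map φ) ≠ ((φ (a * b) : Q) : Q ⧸ Z.map φ) := by
      intro h2
      rw [QuotientGroup.eq, map_mul, inv_mul_cancel_left] at h2
      exact hbZ (coe_eq_one_iff hZY hY hb h2)
    have h2 : (l.map (fun c => φ (a * b) • c)).IsChain (· ≠ ·) := by
      rw [List.isChain_map]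
      refine ih.imp ?_
      intro c d hcd h3
      exact hcd (MulAction.injective _ h3)
    have h3 : (((φ (a * b) : Q) : Q ⧸ Z.map φ) ::
        l.map (fun c => φ (a * b) • c)).IsChain (· ≠ ·) := by
      cases l with
      | nil => exact List.IsChain.singleton _
      | cons c l =>
        rw [List.map_cons] at h2 ⊢
        refine List.IsChain.cons_cons ?_ h2
        intro h4
        apply hl c (by simp)
        have h5 : φ (a * b) • ((1 : Q) : Q ⧸ Z.map φ) = φ (a * b) • c := by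
          rw [← h4]
          change ((φ (a * b) * 1 : Q) : Q ⧸ Z.map φ) = _
          rw [mul_one]
        exact (MulAction.injective _ h5).symm
    exact List.IsChain.cons_cons h1 h3

theorem Red.mem_of_nil {g : G} (h : Red φ X Y Z g []) : g ∈ X := by
  cases h with
  | base x hx => exact hx

variable {K : Type w} [Field K]

theorem Red.theta (Θ : G →* TS K (Q ⧸ Z.map φ) Q)
    (hΘX : ∀ x ∈ X, Θ x = Cg K _ (φ x))
    (hΘY : ∀ y ∈ Y, Θ y = U K Q ((1 : Q) : Q ⧸ Z.map φ) * Cg K _ (φ y) *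
      V K Q ((1 : Q) : Q ⧸ Z.map φ))
    {g : G} {l : List (Q ⧸ Z.map φ)} (h : Red φ X Y Z g l) :
    Θ g = P K Q true l * Cg K _ (φ g) := by
  induction h with
  | base x hx => rw [P, one_mul, hΘX x hx]
  | cons a b g l ha hb hbZ h hl ih =>
    have e1 : φ a • ((1 : Q) : Q ⧸ Z.map φ) = ((φ a : Q) : Q ⧸ Z.map φ) := by
      change ((φ a * 1 : Q) : Q ⧸ Z.map φ) = _
      rw [mul_one]
    have e2 : φ (a * b) • ((1 : Q) : Q ⧸ Z.map φ) = ((φ (a * b) : Q) : Q ⧸ Z.map φ) := by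
      change ((φ (a * b) * 1 : Q) : Q ⧸ Z.map φ) = _
      rw [mul_one]
    rw [P, P, map_mul, map_mul, ih, hΘX a ha, hΘY b hb, map_mul φ (a * b) g]
    rw [map_mul (Cg K (Q ⧸ Z.map φ)) (φ (a * b)) (φ g)]
    have h1 := Cg_mul_U (K := K) (φ a) ((1 : Q) : Q ⧸ Z.map φ)
    have h2 := Cg_mul_V (K := K) (φ (a * b)) ((1 : Q) : Q ⧸ Z.map φ)
    have h3 := Cg_mul_P (K := K) (φ (a * b)) true l
    rw [e1] at h1
    rw [e2] at h2
    calc Cg K (Q ⧸ Z.map φ) (φ a) * (U K Q ((1 : Q) : Q ⧸ Z.map φ) * Cg K _ (φ b) *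
          V K Q ((1 : Q) : Q ⧸ Z.map φ)) * (P K Q true l * Cg K _ (φ g))
        = (Cg K (Q ⧸ Z.map φ) (φ a) * U K Q ((1 : Q) : Q ⧸ Z.map φ)) * Cg K _ (φ b) *
          V K Q ((1 : Q) : Q ⧸ Z.map φ) * (P K Q true l * Cg K _ (φ g)) := by
          simp only [mul_assoc]
      _ = U K Q ((φ a : Q) : Q ⧸ Z.map φ) * (Cg K (Q ⧸ Z.map φ) (φ (a * b)) *
          V K Q ((1 : Q) : Q ⧸ Z.map φ)) * (P K Q true l * Cg K _ (φ g)) := by
          rw [h1, map_mul φ, map_mul (Cg K (Q ⧸ Z.map φ))]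
          simp only [mul_assoc]
      _ = U K Q ((φ a : Q) : Q ⧸ Z.map φ) * V K Q ((φ (a * b) : Q) : Q ⧸ Z.map φ) *
          (Cg K (Q ⧸ Z.map φ) (φ (a * b)) * P K Q true l) * Cg K _ (φ g) := by
          rw [h2]
          simp only [mul_assoc]
      _ = _ := by
          rw [h3]
          simp only [mul_assoc]

theorem theta_injective (hZX : Z ≤ X) (hZY : Z ≤ Y) (hgen : X ⊔ Y = ⊤)
    (hX : ∀ x ∈ X, φ x = 1 → x = 1) (hY : ∀ y ∈ Y, φ y = 1 → y = 1)
    (Θ : G →* TS K (Q ⧸ Z.map φ) Q)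
    (hΘX : ∀ x ∈ X, Θ x = Cg K _ (φ x))
    (hΘY : ∀ y ∈ Y, Θ y = U K Q ((1 : Q) : Q ⧸ Z.map φ) * Cg K _ (φ y) *
      V K Q ((1 : Q) : Q ⧸ Z.map φ)) : Function.Injective Θ := by
  intro g g' hgg
  have h1 : Θ (g⁻¹ * g') = 1 := by
    rw [map_mul, ← hgg, ← map_mul, inv_mul_cancel, map_one]
  obtain ⟨l, hl⟩ := exists_red hZX hZY hgen hX (g⁻¹ * g')
  have hc := hl.isChain hZY hY
  have h2 := hl.theta Θ hΘX hΘY
  rw [h1] at h2
  have h3 : (1 : TS K (Q ⧸ Z.map φ) Q) = P K Q true [] * Cg K _ 1 := by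
    rw [P, one_mul, map_one]
  obtain ⟨ε, hε, h4⟩ := ev_P (K := K) true l (φ (g⁻¹ * g'))
  obtain ⟨ε', hε', h5⟩ := ev_P (K := K) true ([] : List (Q ⧸ Z.map φ)) (1 : Q)
  have h6 := h4 l (φ (g⁻¹ * g')) hc le_rfl
  have h7 := h5 l (φ (g⁻¹ * g')) hc (Nat.zero_le _)
  rw [← h2] at h6
  rw [← h3] at h7
  rw [h6] at h7
  rw [if_pos ⟨rfl, rfl⟩] at h7
  by_cases h8 : l = [] ∧ φ (g⁻¹ * g') = 1
  · obtain ⟨h9, h10⟩ := h8
    rw [h9] at hl
    have h11 := hX _ hl.mem_of_nil h10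
    rw [inv_mul_eq_one] at h11
    exact h11
  · rw [if_neg h8] at h7
    exact absurd h7 hε

theorem ev_zero (l : List (Q ⧸ Z.map φ)) (q : Q) :
    ev (0 : TS K (Q ⧸ Z.map φ) Q) l q = 0 := by
  simp [ev]

theorem ev_sum {ι : Type*} (s : Finset ι) (F : ι → TS K (Q ⧸ Z.map φ) Q)
    (l : List (Q ⧸ Z.map φ)) (q : Q) :
    ev (∑ i ∈ s, F i) l q = ∑ i ∈ s, ev (F i) l q := by
  classical
  induction s using Finset.induction_on with
  | empty => simp [ev]
  | insert a s ha ih =>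
    rw [Finset.sum_insert ha, Finset.sum_insert ha, ← ih]
    simp [ev]

theorem ev_smul (k : K) (F : TS K (Q ⧸ Z.map φ) Q)
    (l : List (Q ⧸ Z.map φ)) (q : Q) :
    ev (k • F) l q = k * ev F l q := by
  simp [ev]

theorem lift_injective (hZX : Z ≤ X) (hZY : Z ≤ Y) (hgen : X ⊔ Y = ⊤)
    (hX : ∀ x ∈ X, φ x = 1 → x = 1) (hY : ∀ y ∈ Y, φ y = 1 → y = 1)
    (Θ : G →* TS K (Q ⧸ Z.map φ) Q)
    (hΘX : ∀ x ∈ X, Θ x = Cg K _ (φ x))
    (hΘY : ∀ y ∈ Y, Θ y = U K Q ((1 : Q) : Q ⧸ Z.map φ) * Cg K _ (φ y) *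
      V K Q ((1 : Q) : Q ⧸ Z.map φ)) :
    Function.Injective (MonoidAlgebra.lift K (TS K (Q ⧸ Z.map φ) Q) G Θ) := by
  classical
  have hinj := theta_injective hZX hZY hgen hX hY Θ hΘX hΘY
  rw [injective_iff_map_eq_zero]
  intro f hf
  by_contra hne
  have hex := exists_red hZX hZY hgen hX
  choose l hl using hex
  have hs : f.coeff.support.Nonempty := by
    rw [Finsupp.support_nonempty_iff]
    intro h
    apply hne
    ext g
    rw [h]
    rfl
  obtain ⟨g0, hg0, hmax⟩ := Finset.exists_max_image f.coeff.support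
    (fun g => (l g).length) hs
  have hc := (hl g0).isChain hZY hY
  rw [MonoidAlgebra.lift_apply] at hf
  have h1 : ev (f.coeff.sum fun a b => b • Θ a) (l g0) (φ g0) = 0 := by
    rw [hf]
    exact ev_zero _ _
  rw [Finsupp.sum, ev_sum, Finset.sum_eq_single g0] at h1
  · rw [ev_smul, (hl g0).theta Θ hΘX hΘY] at h1
    obtain ⟨ε, hε, h4⟩ := ev_P (K := K) true (l g0) (φ g0)
    rw [h4 (l g0) (φ g0) hc le_rfl, if_pos ⟨rfl, rfl⟩] at h1
    rw [Finsupp.mem_support_iff] at hg0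
    exact (mul_ne_zero hg0 hε) h1
  · intro g hg hgg0
    rw [ev_smul, (hl g).theta Θ hΘX hΘY]
    obtain ⟨ε, hε, h4⟩ := ev_P (K := K) true (l g) (φ g)
    rw [h4 (l g0) (φ g0) hc (hmax g hg), if_neg, mul_zero]
    rintro ⟨h5, h6⟩
    apply hgg0
    apply hinj
    rw [(hl g).theta Θ hΘX hΘY, (hl g0).theta Θ hΘX hΘY, h5, h6]
  · intro h
    exact absurd hg0 h

end red

/-- The group algebra of a group generated by two subgroups which embed in a group `Q` over their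
common part, with a homomorphism to the units of the power series ring of a special form. -/
theorem abstract_main {K : Type w} [Field K] {G : Type u} {Q : Type v} [Group G] [Group Q]
    [NoZeroDivisors (MonoidAlgebra K Q)] (φ : G →* Q) (X Y Z : Subgroup G) (hZX : Z ≤ X)
    (hZY : Z ≤ Y) (hgen : X ⊔ Y = ⊤) (hX : ∀ x ∈ X, φ x = 1 → x = 1)
    (hY : ∀ y ∈ Y, φ y = 1 → y = 1)
    (Θ : G →* TS K (Q ⧸ Z.map φ) Q)
    (hΘX : ∀ x ∈ X, Θ x = Cg K _ (φ x))
    (hΘY : ∀ y ∈ Y, Θ y = U K Q ((1 : Q) : Q ⧸ Z.map φ) * Cg K _ (φ y) *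
      V K Q ((1 : Q) : Q ⧸ Z.map φ)) :
    NoZeroDivisors (MonoidAlgebra K G) := by
  have h1 : NoZeroDivisors (TA K (Q ⧸ Z.map φ) Q) := noZeroDivisors_TA
  have h2 : NoZeroDivisors (TS K (Q ⧸ Z.map φ) Q) := inferInstance
  exact Function.Injective.noZeroDivisors _
    (lift_injective hZX hZY hgen hX hY Θ hΘX hΘY) (map_zero _) (map_mul _)

end Pool.Agent.Lib.MP_7b9603_alIL
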