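import Pool.Agent.Lib.MP_7b9603_alIL.StepGen
import Pool.Agent.Lib.MP_7b9603_alIL.All

/-!
# Infinite labels: maps of Coxeter matrices
-/

set_option autoImplicit false

namespace Pool.Agent.Lib.MP_7b9603_alIL

universe u w

open SPH

open Pool.Agent.Lib.MP_7b9603_alCF in
/-- A homomorphism of Artin groups defined by a map of the generators is injective on the standard
parabolic subgroups on which the map is injective and preserves the labels. -/
private theorem mp_inj {S S' : Type u} (M : CoxeterMatrix S) (N : CoxeterMatrix S') (g : S → S')
    (R : Set S) (hg : Set.InjOn g R) (hR : ∀ a ∈ R, ∀ b ∈ R, N (g a) (g b) = M a b)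
    (φ : ArtinGroup M →* ArtinGroup N) (hφ : ∀ a, φ (agen M a) = agen N (g a)) :
    ∀ x ∈ Subgroup.closure (agen M '' R), φ x = 1 → x = 1 := by
  intro x hx h1
  have e1 : ∀ a b : R, M (a : S) (b : S) = sm M R a b := fun _ _ => rfl
  have e2 : ∀ a b : R, N (g (a : S)) (g (b : S)) = sm M R a b := fun a b => hR a a.2 b b.2
  have hinj : Function.Injective (fun a : R => g (a : S)) := by
    intro a b hab
    exact Subtype.ext (hg a.2 b.2 hab)
  have h2 : Subgroup.closure (agen M '' R) ≤ (incA (sm M R) M Subtype.val e1).range := by
    rw [Subgroup.closure_le]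
    rintro _ ⟨r, hr, rfl⟩
    exact ⟨agen (sm M R) ⟨r, hr⟩, incA_agen _ _ _ _ _⟩
  obtain ⟨y, rfl⟩ := h2 hx
  have h3 : φ.comp (incA (sm M R) M Subtype.val e1) =
      incA (sm M R) N (fun a : R => g (a : S)) e2 := by
    apply artin_hom_ext
    intro a
    exact (congrArg φ (incA_agen (sm M R) M Subtype.val e1 a)).trans
      ((hφ a).trans (incA_agen (sm M R) N (fun a : R => g (a : S)) e2 a).symm)
  have h4 : incA (sm M R) N (fun a : R => g (a : S)) e2 y = 1 := by
    rw [← h3]
    exact h1
  have h5 := incA_injective (sm M R) N (fun a : R => g (a : S)) hinj e2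
  have h6 : y = 1 := h5 (by rw [h4, map_one])
  rw [h6, map_one]

open Classical in
/-- The blow-up of a Coxeter matrix along a map. -/
private noncomputable def bl {S S' : Type u} (M' : CoxeterMatrix S') (f : S → S') :
    CoxeterMatrix S where
  M := fun a b => if a = b then 1 else if f a = f b then 0 else M' (f a) (f b)
  isSymm := by
    refine Matrix.IsSymm.ext fun i j => ?_
    by_cases h : i = j
    · rw [h]
    · by_cases h' : f i = f j
      · rw [if_neg (Ne.symm h), if_neg h, if_pos h'.symm, if_pos h']
      · rw [if_neg (Ne.symm h), if_neg h, if_neg (Ne.symm h'), if_neg h']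
        exact M'.symmetric _ _
  diagonal := fun i => if_pos rfl
  off_diagonal := fun i j h => by
    rw [if_neg h]
    by_cases h' : f i = f j
    · rw [if_pos h']
      exact zero_ne_one
    · rw [if_neg h']
      exact M'.off_diagonal _ _ h'

open Classical in
private theorem bl_apply {S S' : Type u} (M' : CoxeterMatrix S') (f : S → S') (a b : S) :
    bl M' f a b = if a = b then 1 else if f a = f b then 0 else M' (f a) (f b) := rfl

private theorem bl_nzd {S' : Type u} (M' : CoxeterMatrix S') (K : Type w) [Field K]
    [NoZeroDivisors (MonoidAlgebra K (ArtinGroup M'))] :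
    ∀ (n : ℕ) (S : Type u) [Finite S] (f : S → S'), Nat.card S = n →
      NoZeroDivisors (MonoidAlgebra K (ArtinGroup (bl M' f))) := by
  classical
  intro n
  induction n using Nat.strong_induction_on with
  | _ n ih =>
    intro S _ f hn
    by_cases hf : Function.Injective f
    · have h1 : ∀ a b, M' (f a) (f b) = bl M' f a b := by
        intro a b
        rw [bl_apply]
        by_cases h : a = b
        · rw [if_pos h, h]
          exact M'.diagonal _
        · rw [if_neg h, if_neg (fun h' => h (hf h'))]
      have h2 := Pool.Agent.Lib.MP_7b9603_alCF.incA_injective (bl M' f) M' f hf h1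
      exact Function.Injective.noZeroDivisors
        (MonoidAlgebra.mapDomainRingHom K
          (Pool.Agent.Lib.MP_7b9603_alCF.incA (bl M' f) M' f h1))
        (MonoidAlgebra.mapDomain_injective h2) (map_zero _) (map_mul _)
    · rw [Function.Injective] at hf
      push Not at hf
      obtain ⟨s, t, hfst, hst⟩ := hf
      let f' : {x : S // x ≠ t} → S' := fun x => f x.1
      let g : S → {x : S // x ≠ t} := fun x => if h : x = t then ⟨s, hst⟩ else ⟨x, h⟩
      have hgt : g t = ⟨s, hst⟩ := dif_pos rfl
      have hgx : ∀ x (h : x ≠ t), g x = ⟨x, h⟩ := fun x h => dif_neg h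
      have hfg : ∀ x, f' (g x) = f x := by
        intro x
        by_cases h : x = t
        · rw [h, hgt]
          exact hfst
        · rw [hgx x h]
      have hcard : Nat.card {x : S // x ≠ t} < n := by
        rw [← hn]
        exact Finite.card_subtype_lt (x := t) (by simp)
      have hnz : NoZeroDivisors (MonoidAlgebra K (ArtinGroup (bl M' f'))) :=
        ih _ hcard {x : S // x ≠ t} f' rfl
      have hlab : ∀ a b, (g a = g b → a = b) → bl M' f' (g a) (g b) = bl M' f a b := by
        intro a b hab
        rw [bl_apply, bl_apply, hfg, hfg]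
        by_cases h : a = b
        · rw [if_pos h, if_pos (congrArg g h)]
        · rw [if_neg h, if_neg (fun h' => h (hab h'))]
      let φ : ArtinGroup (bl M' f) →* ArtinGroup (bl M' f') :=
        ArtinGroup.lift _ (fun a => agen _ (g a)) (by
          intro a b hab
          have h1 : bl M' f' (g a) (g b) = bl M' f a b := by
            apply hlab
            intro h
            by_contra hne
            apply hab
            have h2 : f a = f b := by rw [← hfg a, ← hfg b, h]
            rw [bl_apply, if_neg hne, if_pos h2]
          rw [← h1]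
          exact agen_rel _ _ _ (by rw [h1]; exact hab))
      have hφ : ∀ a, φ (agen _ a) = agen _ (g a) := fun a => ArtinGroup.lift_agen _ _ _ _
      have i1 : Set.InjOn g {t}ᶜ := by
        intro a ha b hb hab
        rw [hgx a ha, hgx b hb] at hab
        exact congrArg Subtype.val hab
      have i2 : Set.InjOn g {s}ᶜ := by
        intro a ha b hb hab
        by_cases hat : a = t
        · by_cases hbt : b = t
          · rw [hat, hbt]
          · rw [hat, hgt, hgx b hbt] at hab
            exact absurd (congrArg Subtype.val hab).symm hb
        · by_cases hbt : b = t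
          · rw [hbt, hgt, hgx a hat] at hab
            exact absurd (congrArg Subtype.val hab) ha
          · rw [hgx a hat, hgx b hbt] at hab
            exact congrArg Subtype.val hab
      refine step_gen (bl M' f) s t hst ?_ φ ?_ ?_ K
      · rw [bl_apply, if_neg hst, if_pos hfst]
      · exact mp_inj _ _ g _ i2 (fun a ha b hb => hlab a b (fun h => i2 ha hb h)) φ hφ
      · exact mp_inj _ _ g _ i1 (fun a ha b hb => hlab a b (fun h => i1 ha hb h)) φ hφ

/-- Maps of Coxeter matrices which preserve the finite labels. -/
theorem map_labels {S S' : Type u} [Finite S] (M : CoxeterMatrix S) (M' : CoxeterMatrix S')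
    (f : S → S') (hM : ∀ a b, M a b ≠ 0 → M' (f a) (f b) = M a b)
    (K : Type w) [Field K] [NoZeroDivisors (MonoidAlgebra K (ArtinGroup M'))] :
    NoZeroDivisors (MonoidAlgebra K (ArtinGroup M)) := by
  classical
  have h1 : NoZeroDivisors (MonoidAlgebra K (ArtinGroup (bl M' f))) := bl_nzd M' K _ S f rfl
  refine all_labels M (bl M' f) ?_ K
  intro a b hab
  rw [bl_apply]
  by_cases h : a = b
  · rw [if_pos h, h]
    exact (M.diagonal b).symm
  · have h2 := hM a b hab
    by_cases h' : f a = f b
    · exfalso
      apply M.off_diagonal a b h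
      rw [h', show M' (f b) (f b) = 1 from M'.diagonal _] at h2
      exact h2.symm
    · rw [if_neg h, if_neg h']
      exact h2

end Pool.Agent.Lib.MP_7b9603_alIL
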