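import Pool.Agent.Lib.MP_7b9603_alCF.F2
import Pool.Agent.Lib.MP_7b9603_alIL.Ser
import Pool.Agent.Lib.MP_7b9603_alIL.Main

/-!
# Infinite labels: one infinite label
-/

set_option autoImplicit false

namespace Pool.Agent.Lib.MP_7b9603_alIL

universe u v w

open SPH

open Pool.Agent.Lib.MP_7b9603_alCF in
/-- A homomorphism of Artin groups which is the identity on the generators is injective on the
standard parabolic subgroups on which the two matrices agree. -/
private theorem st_inj {S : Type u} (M M' : CoxeterMatrix S) (R : Set S)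
    (hR : ∀ a ∈ R, ∀ b ∈ R, M' a b = M a b) (φ : ArtinGroup M →* ArtinGroup M')
    (hφ : ∀ a, φ (agen M a) = agen M' a) :
    ∀ x ∈ Subgroup.closure (agen M '' R), φ x = 1 → x = 1 := by
  intro x hx h1
  have e1 : ∀ a b : R, M (a : S) (b : S) = sm M R a b := fun _ _ => rfl
  have e2 : ∀ a b : R, M' (a : S) (b : S) = sm M R a b := fun a b => hR a a.2 b b.2
  have h2 : Subgroup.closure (agen M '' R) ≤ (incA (sm M R) M Subtype.val e1).range := by
    rw [Subgroup.closure_le]
    rintro _ ⟨r, hr, rfl⟩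
    exact ⟨agen (sm M R) ⟨r, hr⟩, incA_agen _ _ _ _ _⟩
  obtain ⟨y, rfl⟩ := h2 hx
  have h3 : φ.comp (incA (sm M R) M Subtype.val e1) = incA (sm M R) M' Subtype.val e2 := by
    apply artin_hom_ext
    intro a
    exact (congrArg φ (incA_agen (sm M R) M Subtype.val e1 a)).trans
      ((hφ a).trans (incA_agen (sm M R) M' Subtype.val e2 a).symm)
  have h4 : incA (sm M R) M' Subtype.val e2 y = 1 := by
    rw [← h3]
    exact h1
  have h5 := incA_injective (sm M R) M' Subtype.val Subtype.val_injective e2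
  have h6 : y = 1 := h5 (by rw [h4, map_one])
  rw [h6, map_one]

section series

variable {K : Type w} [Field K] {B : Type u} {G : Type v} [Group G] [MulAction G B]

/-- The unit `U c`. -/
private noncomputable def st_U (K : Type w) [Field K] {B : Type u} (G : Type v) [Group G]
    [MulAction G B] (c : B) : (TS K B G)ˣ :=
  ⟨U K G c, V K G c, U_mul_V c, V_mul_U c⟩

private theorem st_comm (c : B) (g : G) (hg : g • c = c) :
    st_U K G c * (Cg K B).toHomUnits g * (st_U K G c)⁻¹ = (Cg K B).toHomUnits g := by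
  rw [mul_inv_eq_iff_eq_mul]
  apply Units.ext
  have h := Cg_mul_U (K := K) g c
  rw [hg] at h
  exact h.symm

end series

theorem step {S : Type u} (M M' : CoxeterMatrix S) (s t : S) (hst : s ≠ t) (h0 : M s t = 0)
    (hM : ∀ a b, ¬ (a = s ∧ b = t) → ¬ (a = t ∧ b = s) → M' a b = M a b)
    (K : Type w) [Field K] [NoZeroDivisors (MonoidAlgebra K (ArtinGroup M'))] :
    NoZeroDivisors (MonoidAlgebra K (ArtinGroup M)) := by
  classical
  have h0' : M t s = 0 := by rw [M.symmetric]; exact h0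
  have hMM : ∀ a b, M a b ≠ 0 → M' a b = M a b := by
    intro a b hab
    refine hM a b ?_ ?_
    · rintro ⟨rfl, rfl⟩
      exact hab h0
    · rintro ⟨rfl, rfl⟩
      exact hab h0'
  -- the homomorphism to the Artin group of `M'`
  let φ : ArtinGroup M →* ArtinGroup M' := ArtinGroup.lift M (agen M') (by
    intro a b hab
    rw [← hMM a b hab]
    exact agen_rel M' a b (by rw [hMM a b hab]; exact hab))
  have hφ : ∀ a, φ (agen M a) = agen M' a := fun a => ArtinGroup.lift_agen _ _ _ _
  have hZX : Subgroup.closure (agen M '' {s, t}ᶜ) ≤ Subgroup.closure (agen M '' {s}ᶜ) :=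
    Subgroup.closure_mono (Set.image_mono (Set.compl_subset_compl.2 (by simp)))
  have hZY : Subgroup.closure (agen M '' {s, t}ᶜ) ≤ Subgroup.closure (agen M '' {t}ᶜ) :=
    Subgroup.closure_mono (Set.image_mono (Set.compl_subset_compl.2 (by simp)))
  have hgen : Subgroup.closure (agen M '' {s}ᶜ) ⊔ Subgroup.closure (agen M '' {t}ᶜ) = ⊤ := by
    rw [eq_top_iff, ← (PresentedGroup.closure_range_of (artinRelM M)), Subgroup.closure_le]
    rintro _ ⟨r, rfl⟩
    by_cases hr : r = s
    · refine (le_sup_right : Subgroup.closure (agen M '' {t}ᶜ) ≤ _)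
        (Subgroup.subset_closure ⟨r, ?_, rfl⟩)
      rw [Set.mem_compl_iff, Set.mem_singleton_iff, hr]
      exact hst
    · refine (le_sup_left : Subgroup.closure (agen M '' {s}ᶜ) ≤ _)
        (Subgroup.subset_closure ⟨r, ?_, rfl⟩)
      exact hr
  have hX := st_inj M M' {s}ᶜ (fun a ha b hb => hM a b (fun h => ha h.1) (fun h => hb h.2)) φ hφ
  have hY := st_inj M M' {t}ᶜ (fun a ha b hb => hM a b (fun h => hb h.2) (fun h => ha h.1)) φ hφ
  generalize hZ : Subgroup.closure (agen M '' {s, t}ᶜ) = Z at hZX hZY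
  have hZm : ∀ r, r ≠ s → r ≠ t → agen M' r ∈ Z.map φ := by
    intro r hr hr'
    refine ⟨agen M r, ?_, hφ r⟩
    rw [← hZ]
    refine Subgroup.subset_closure ⟨r, ?_, rfl⟩
    rw [Set.mem_compl_iff, Set.mem_insert_iff, Set.mem_singleton_iff, not_or]
    exact ⟨hr, hr'⟩
  -- the units
  let c : ArtinGroup M' ⧸ Z.map φ := ((1 : ArtinGroup M') : ArtinGroup M' ⧸ Z.map φ)
  let Cq : ArtinGroup M' →* (TS K (ArtinGroup M' ⧸ Z.map φ) (ArtinGroup M'))ˣ :=
    (Cg K (ArtinGroup M' ⧸ Z.map φ)).toHomUnits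
  let ψ : ArtinGroup M' →* (TS K (ArtinGroup M' ⧸ Z.map φ) (ArtinGroup M'))ˣ :=
    (MulAut.conj (st_U K (ArtinGroup M') c)).toMonoidHom.comp Cq
  have hψ : ∀ q, ψ q = st_U K (ArtinGroup M') c * Cq q * (st_U K (ArtinGroup M') c)⁻¹ :=
    fun q => rfl
  have hfix : ∀ q ∈ Z.map φ, q • c = c := by
    intro q hq
    have h1 : q • c = ((q * 1 : ArtinGroup M') : ArtinGroup M' ⧸ Z.map φ) := rfl
    rw [h1, mul_one]
    refine QuotientGroup.eq.2 ?_
    rw [mul_one]
    exact inv_mem hq
  let σ : S → (TS K (ArtinGroup M' ⧸ Z.map φ) (ArtinGroup M'))ˣ :=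
    fun r => if r = s then ψ (agen M' r) else Cq (agen M' r)
  have σX : ∀ r, r ≠ s → σ r = Cq (agen M' r) := fun r hr => if_neg hr
  have σY : ∀ r, r ≠ t → σ r = ψ (agen M' r) := by
    intro r hr
    by_cases h : r = s
    · exact if_pos h
    · rw [σX r h, hψ]
      exact (st_comm c _ (hfix _ (hZm r h hr))).symm
  have hrel : ∀ a b, M a b ≠ 0 →
      altProd (σ a) (σ b) (M a b) = altProd (σ b) (σ a) (M a b) := by
    intro a b hab
    have h1 : altProd (agen M' a) (agen M' b) (M a b) =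
        altProd (agen M' b) (agen M' a) (M a b) := by
      rw [← hMM a b hab]
      exact agen_rel M' a b (by rw [hMM a b hab]; exact hab)
    by_cases hs : a ≠ s ∧ b ≠ s
    · rw [σX a hs.1, σX b hs.2, ← altProd_map, ← altProd_map, h1]
    · have ha : a ≠ t := by
        rintro rfl
        apply hs
        refine ⟨hst.symm, ?_⟩
        rintro rfl
        exact hab h0'
      have hb : b ≠ t := by
        rintro rfl
        apply hs
        refine ⟨?_, hst.symm⟩
        rintro rfl
        exact hab h0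
      rw [σY a ha, σY b hb, ← altProd_map, ← altProd_map, h1]
  let Θ' : ArtinGroup M →* (TS K (ArtinGroup M' ⧸ Z.map φ) (ArtinGroup M'))ˣ :=
    ArtinGroup.lift M σ hrel
  have hΘ' : ∀ a, Θ' (agen M a) = σ a := fun a => ArtinGroup.lift_agen _ _ _ _
  have hΘX : Set.EqOn Θ' (Cq.comp φ) (Subgroup.closure (agen M '' {s}ᶜ)) := by
    apply MonoidHom.eqOn_closure
    rintro _ ⟨r, hr, rfl⟩
    rw [hΘ', MonoidHom.comp_apply, hφ]
    exact σX r hr
  have hΘY : Set.EqOn Θ' (ψ.comp φ) (Subgroup.closure (agen M '' {t}ᶜ)) := by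
    apply MonoidHom.eqOn_closure
    rintro _ ⟨r, hr, rfl⟩
    rw [hΘ', MonoidHom.comp_apply, hφ]
    exact σY r hr
  refine abstract_main φ (Subgroup.closure (agen M '' {s}ᶜ)) (Subgroup.closure (agen M '' {t}ᶜ))
    Z hZX hZY hgen hX hY ((Units.coeHom _).comp Θ') ?_ ?_
  · intro x hx
    rw [MonoidHom.comp_apply, hΘX hx]
    rfl
  · intro y hy
    rw [MonoidHom.comp_apply, hΘY hy]
    rfl

end Pool.Agent.Lib.MP_7b9603_alIL
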