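import Pool.Agent.Lib.MP_7b9603_alCF.F2
import Pool.Agent.Lib.MP_7b9603_alIL.Ser
import Pool.Agent.Lib.MP_7b9603_alIL.Main

/-!
# Infinite labels: homomorphisms injective on two parabolic subgroups
-/

set_option autoImplicit false

namespace Pool.Agent.Lib.MP_7b9603_alIL

universe u v w

open SPH

section series

variable {K : Type w} [Field K] {B : Type u} {G : Type v} [Group G] [MulAction G B]

/-- The unit `U c`. -/
private noncomputable def sg_U (K : Type w) [Field K] {B : Type u} (G : Type v) [Group G]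
    [MulAction G B] (c : B) : (TS K B G)ˣ :=
  ⟨U K G c, V K G c, U_mul_V c, V_mul_U c⟩

private theorem sg_comm (c : B) (g : G) (hg : g • c = c) :
    sg_U K G c * (Cg K B).toHomUnits g * (sg_U K G c)⁻¹ = (Cg K B).toHomUnits g := by
  rw [mul_inv_eq_iff_eq_mul]
  apply Units.ext
  have h := Cg_mul_U (K := K) g c
  rw [hg] at h
  exact h.symm

end series

/-- If `m_{st} = ∞` and `φ` is injective on the two standard parabolic subgroups which omit `s`
and `t`, then the group algebra of the Artin group has no zero divisors if the one of the target of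
`φ` has none. -/
theorem step_gen {S : Type u} (M : CoxeterMatrix S) (s t : S) (hst : s ≠ t) (h0 : M s t = 0)
    {Q : Type v} [Group Q] (φ : ArtinGroup M →* Q)
    (hX : ∀ x ∈ Subgroup.closure (agen M '' {s}ᶜ), φ x = 1 → x = 1)
    (hY : ∀ x ∈ Subgroup.closure (agen M '' {t}ᶜ), φ x = 1 → x = 1)
    (K : Type w) [Field K] [NoZeroDivisors (MonoidAlgebra K Q)] :
    NoZeroDivisors (MonoidAlgebra K (ArtinGroup M)) := by
  classical
  have h0' : M t s = 0 := by rw [M.symmetric]; exact h0
  have hZX : Subgroup.closure (agen M '' {s, t}ᶜ) ≤ Subgroup.closure (agen M '' {s}ᶜ) :=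
    Subgroup.closure_mono (Set.image_mono (Set.compl_subset_compl.2 (by simp)))
  have hZY : Subgroup.closure (agen M '' {s, t}ᶜ) ≤ Subgroup.closure (agen M '' {t}ᶜ) :=
    Subgroup.closure_mono (Set.image_mono (Set.compl_subset_compl.2 (by simp)))
  have hgen : Subgroup.closure (agen M '' {s}ᶜ) ⊔ Subgroup.closure (agen M '' {t}ᶜ) = ⊤ := by
    rw [eq_top_iff, ← (PresentedGroup.closure_range_of (artinRelM M)), Subgroup.closure_le]
    rintro _ ⟨r, rfl⟩
    by_cases hr : r = s
    · refine (le_sup_right : Subgroup.closure (agen M '' {t}ᶜ) ≤ _)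
        (Subgroup.subset_closure ⟨r, ?_, rfl⟩)
      rw [Set.mem_compl_iff, Set.mem_singleton_iff, hr]
      exact hst
    · refine (le_sup_left : Subgroup.closure (agen M '' {s}ᶜ) ≤ _)
        (Subgroup.subset_closure ⟨r, ?_, rfl⟩)
      exact hr
  generalize hZ : Subgroup.closure (agen M '' {s, t}ᶜ) = Z at hZX hZY
  have hZm : ∀ r, r ≠ s → r ≠ t → φ (agen M r) ∈ Z.map φ := by
    intro r hr hr'
    refine ⟨agen M r, ?_, rfl⟩
    rw [← hZ]
    refine Subgroup.subset_closure ⟨r, ?_, rfl⟩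
    rw [Set.mem_compl_iff, Set.mem_insert_iff, Set.mem_singleton_iff, not_or]
    exact ⟨hr, hr'⟩
  -- the units
  let c : Q ⧸ Z.map φ := ((1 : Q) : Q ⧸ Z.map φ)
  let Cq : Q →* (TS K (Q ⧸ Z.map φ) Q)ˣ := (Cg K (Q ⧸ Z.map φ)).toHomUnits
  let ψ : Q →* (TS K (Q ⧸ Z.map φ) Q)ˣ :=
    (MulAut.conj (sg_U K Q c)).toMonoidHom.comp Cq
  have hψ : ∀ q, ψ q = sg_U K Q c * Cq q * (sg_U K Q c)⁻¹ :=
    fun q => rfl
  have hfix : ∀ q ∈ Z.map φ, q • c = c := by
    intro q hq
    have h1 : q • c = ((q * 1 : Q) : Q ⧸ Z.map φ) := rfl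
    rw [h1, mul_one]
    refine QuotientGroup.eq.2 ?_
    rw [mul_one]
    exact inv_mem hq
  let σ : S → (TS K (Q ⧸ Z.map φ) Q)ˣ :=
    fun r => if r = s then ψ (φ (agen M r)) else Cq (φ (agen M r))
  have σX : ∀ r, r ≠ s → σ r = Cq (φ (agen M r)) := fun r hr => if_neg hr
  have σY : ∀ r, r ≠ t → σ r = ψ (φ (agen M r)) := by
    intro r hr
    by_cases h : r = s
    · exact if_pos h
    · rw [σX r h, hψ]
      exact (sg_comm c _ (hfix _ (hZm r h hr))).symm
  have hrel : ∀ a b, M a b ≠ 0 →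
      altProd (σ a) (σ b) (M a b) = altProd (σ b) (σ a) (M a b) := by
    intro a b hab
    have h1 : altProd (φ (agen M a)) (φ (agen M b)) (M a b) =
        altProd (φ (agen M b)) (φ (agen M a)) (M a b) := by
      rw [← altProd_map, ← altProd_map, agen_rel M a b hab]
    by_cases hs : a ≠ s ∧ b ≠ s
    · have h2 := congrArg Cq h1
      rw [altProd_map, altProd_map] at h2
      rw [σX a hs.1, σX b hs.2]
      exact h2
    · have ha : a ≠ t := by
        rintro rfl
        apply hs
        refine ⟨hst.symm, ?_⟩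
        rintro rfl
        exact hab h0'
      have hb : b ≠ t := by
        rintro rfl
        apply hs
        refine ⟨?_, hst.symm⟩
        rintro rfl
        exact hab h0
      have h2 := congrArg ψ h1
      rw [altProd_map, altProd_map] at h2
      rw [σY a ha, σY b hb]
      exact h2
  let Θ' : ArtinGroup M →* (TS K (Q ⧸ Z.map φ) Q)ˣ :=
    ArtinGroup.lift M σ hrel
  have hΘ' : ∀ a, Θ' (agen M a) = σ a := fun a => ArtinGroup.lift_agen _ _ _ _
  have hΘX : Set.EqOn Θ' (Cq.comp φ) (Subgroup.closure (agen M '' {s}ᶜ)) := by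
    apply MonoidHom.eqOn_closure
    rintro _ ⟨r, hr, rfl⟩
    rw [hΘ', MonoidHom.comp_apply]
    exact σX r hr
  have hΘY : Set.EqOn Θ' (ψ.comp φ) (Subgroup.closure (agen M '' {t}ᶜ)) := by
    apply MonoidHom.eqOn_closure
    rintro _ ⟨r, hr, rfl⟩
    rw [hΘ', MonoidHom.comp_apply]
    exact σY r hr
  refine abstract_main φ (Subgroup.closure (agen M '' {s}ᶜ)) (Subgroup.closure (agen M '' {t}ᶜ))
    Z hZX hZY hgen hX hY ((Units.coeHom _).comp Θ') ?_ ?_
  · intro x hx
    rw [MonoidHom.comp_apply, hΘX hx]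
    rfl
  · intro y hy
    rw [MonoidHom.comp_apply, hΘY hy]
    rfl

end Pool.Agent.Lib.MP_7b9603_alIL
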